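import Pool.Agent.U485.SM.Stm2

set_option autoImplicit false

/-!
# Package FUL of project HT: from dyadic windows to `(0, x]`
-/

open Finset MeasureTheory ProbabilityTheory Filter Topology

namespace Pool.Agent.U44.HT

open Pool.Agent.U485.SM

theorem num_add (Q : Set ℕ) (H : Finset ℕ) {a b c : ℕ} (hab : a ≤ b) (hbc : b ≤ c) :
    num Q H a c = num Q H a b + num Q H b c := by
  unfold num
  have f1 : {n : ℕ | a < n ∧ n ≤ b ∧ ∀ h ∈ H, n + h ∈ Q}.Finite :=
    (Set.finite_Iic b).subset fun n hn => hn.2.1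
  have f2 : {n : ℕ | b < n ∧ n ≤ c ∧ ∀ h ∈ H, n + h ∈ Q}.Finite :=
    (Set.finite_Iic c).subset fun n hn => hn.2.1
  have hd : Disjoint {n : ℕ | a < n ∧ n ≤ b ∧ ∀ h ∈ H, n + h ∈ Q}
      {n : ℕ | b < n ∧ n ≤ c ∧ ∀ h ∈ H, n + h ∈ Q} := by
    rw [Set.disjoint_left]
    rintro n ⟨_, h2, _⟩ ⟨h1, _, _⟩
    omega
  rw [← Set.ncard_union_eq hd f1 f2]
  congr 1
  ext n
  constructor
  · rintro ⟨h1, h2, h3⟩
    rcases le_or_gt n b with h | h
    · exact Or.inl ⟨h1, h, h3⟩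
    · exact Or.inr ⟨h, h2, h3⟩
  · rintro (⟨h1, h2, h3⟩ | ⟨h1, h2, h3⟩)
    · exact ⟨h1, h2.trans hbc, h3⟩
    · exact ⟨lt_of_le_of_lt hab h1, h2, h3⟩

theorem num_le (Q : Set ℕ) (H : Finset ℕ) (y : ℕ) : num Q H 0 y ≤ y := by
  unfold num
  have h : {n : ℕ | 0 < n ∧ n ≤ y ∧ ∀ h ∈ H, n + h ∈ Q} ⊆ (Finset.Ioc 0 y : Set ℕ) := by
    intro n hn
    simp only [Finset.coe_Ioc, Set.mem_Ioc]
    exact ⟨hn.1, hn.2.1⟩
  calc _ ≤ (Finset.Ioc 0 y : Set ℕ).ncard := Set.ncard_le_ncard h (Finset.finite_toSet _)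
    _ = y := by rw [Set.ncard_coe_finset]; simp

theorem step (Q : Set ℕ) (H : Finset ℕ) (L c ε : ℝ) (hL : 0 ≤ L) (hε : 0 ≤ ε) (z x : ℕ) (hz : 3 ≤ z)
    (hyp : ∀ y h : ℕ, z ≤ y → y + h ≤ x → (y : ℝ) ^ (1 / 2 : ℝ) ≤ h → h ≤ y →
      |(num Q H y (y + h) : ℝ) * L - c * h| ≤ ε * h) :
    ∀ y : ℕ, y ≤ x → |(num Q H 0 y : ℝ) * L - c * y| ≤ ε * y + 2 * z * (L + |c|) := by
  intro y
  induction y using Nat.strong_induction_on with
  | _ y ih =>
    intro hyx
    rcases Nat.lt_or_ge y (2 * z) with h | h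
    · have h1 : (num Q H 0 y : ℝ) ≤ y := by exact_mod_cast num_le Q H y
      have h2 : (y : ℝ) ≤ 2 * z := by exact_mod_cast h.le
      have h3 : (0 : ℝ) ≤ num Q H 0 y := Nat.cast_nonneg _
      have h4 : (0 : ℝ) ≤ y := Nat.cast_nonneg _
      calc |(num Q H 0 y : ℝ) * L - c * y| ≤ |(num Q H 0 y : ℝ) * L| + |c * y| := abs_sub _ _
        _ = (num Q H 0 y : ℝ) * L + |c| * y := by
            rw [abs_of_nonneg (mul_nonneg h3 hL), abs_mul, abs_of_nonneg h4]
        _ ≤ 2 * z * L + |c| * (2 * z) := by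
            gcongr
            exact h1.trans h2
        _ = 2 * z * (L + |c|) := by ring
        _ ≤ ε * y + 2 * z * (L + |c|) := by
            have := mul_nonneg hε h4
            linarith
    · obtain ⟨y', h', hy, hh1, hh2⟩ : ∃ y' h' : ℕ, y = y' + h' ∧ h' ≤ y' ∧ y' ≤ h' + 1 :=
        ⟨(y + 1) / 2, y / 2, by omega, by omega, by omega⟩
      have hzy : z ≤ y' := by omega
      have hh0 : 0 < h' := by omega
      have i1 := ih y' (by omega) (by omega)
      have hroot : (y' : ℝ) ^ (1 / 2 : ℝ) ≤ h' := by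
        rw [← Real.sqrt_eq_rpow]
        apply Real.sqrt_le_iff.2
        refine ⟨Nat.cast_nonneg _, ?_⟩
        have : y' ≤ h' ^ 2 := by nlinarith
        exact_mod_cast this
      have i2 := hyp y' h' hzy (by omega) hroot hh1
      have h5 := num_add Q H (a := 0) (b := y') (c := y' + h') (Nat.zero_le _) (Nat.le_add_right _ _)
      subst hy
      rw [h5]
      push_cast
      calc |((num Q H 0 y' : ℝ) + num Q H y' (y' + h')) * L - c * (y' + h')|
          = |((num Q H 0 y' : ℝ) * L - c * y') + ((num Q H y' (y' + h') : ℝ) * L - c * h')| := by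
            congr 1; ring
        _ ≤ |(num Q H 0 y' : ℝ) * L - c * y'| + |(num Q H y' (y' + h') : ℝ) * L - c * h'| := abs_add_le _ _
        _ ≤ (ε * y' + 2 * z * (L + |c|)) + ε * h' := add_le_add i1 i2
        _ = ε * (y' + h') + 2 * z * (L + |c|) := by ring

theorem ful_aux (Q : Set ℕ) (H : Finset ℕ) (c : ℝ)
    (hyp : ∀ d : ℝ, 0 < d → ∀ᶠ x : ℕ in atTop, ∀ h : ℕ, (x : ℝ) ^ (1 / 2 : ℝ) ≤ h → h ≤ x →
      |(num Q H x (x + h) : ℝ) * (Real.log x) ^ H.card - c * h| ≤ d * h)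
    (ε : ℝ) (hε : 0 < ε) (hε1 : ε ≤ 1) :
    ∀ᶠ x : ℕ in atTop, |(num Q H 0 x : ℝ) * (Real.log x) ^ H.card / x - c| ≤ 2 * ε := by
  set k := H.card with hk
  have hA : 0 < |c| + 1 := by positivity
  set δ : ℝ := ε / (4 * (|c| + 1)) with hδ
  have hδ0 : 0 < δ := by positivity
  have hδ1 : δ ≤ 1 / 4 := by
    rw [hδ, div_le_iff₀ (by positivity)]
    have := abs_nonneg c
    nlinarith
  have hδc : δ * |c| ≤ ε / 4 := by
    rw [hδ, div_mul_eq_mul_div, div_le_iff₀ (by positivity)]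
    have := abs_nonneg c
    nlinarith
  set τ : ℝ := δ / (2 * (k + 1)) with hτ
  have hk0 : (0 : ℝ) ≤ k := Nat.cast_nonneg k
  have hτ0 : 0 < τ := by positivity
  have hτk : k * τ ≤ δ / 2 := by
    rw [hτ, mul_div_assoc', div_le_div_iff₀ (by positivity) (by norm_num)]
    nlinarith
  have hτ1 : τ ≤ 1 / 8 := by
    rw [hτ, div_le_iff₀ (by positivity)]
    nlinarith
  have hpow : 1 ≤ (1 + δ) * (1 - τ) ^ k := by
    have h1 : 1 + (k : ℝ) * (-τ) ≤ (1 + (-τ)) ^ k := one_add_mul_le_pow (by linarith) k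
    have h2 : 1 - δ / 2 ≤ (1 - τ) ^ k := by
      have : (1 + (-τ)) = 1 - τ := by ring
      rw [this] at h1
      linarith
    have h3 : (1 + δ) * (1 - δ / 2) ≤ (1 + δ) * (1 - τ) ^ k := by gcongr
    nlinarith
  obtain ⟨X0, hX0⟩ := eventually_atTop.1 (hyp (ε / 4) (by linarith))
  -- asymptotic facts
  have hlog : Tendsto (fun x : ℕ => Real.log (x : ℝ)) atTop atTop := tlog
  have hcast : Tendsto (fun x : ℕ => (x : ℝ)) atTop atTop := tendsto_natCast_atTop_atTop
  have hz1 : Tendsto (fun x : ℕ => (x : ℝ) ^ (1 - τ)) atTop atTop :=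
    (tendsto_rpow_atTop (by linarith)).comp hcast
  have hsmall : Tendsto (fun x : ℕ => 4 * (x : ℝ) ^ (-τ) * ((Real.log x) ^ k + |c|)) atTop (𝓝 0) := by
    have h1 : Tendsto (fun x : ℝ => (Real.log x) ^ k * x ^ (-τ)) atTop (𝓝 0) := by
      have h2 := (isLittleO_log_rpow_rpow_atTop (s := τ) (k : ℝ) hτ0).tendsto_div_nhds_zero
      refine h2.congr' ?_
      filter_upwards [eventually_gt_atTop 0] with x hx
      rw [Real.rpow_natCast, Real.rpow_neg hx.le, div_eq_mul_inv]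
    have h3 : Tendsto (fun x : ℝ => x ^ (-τ)) atTop (𝓝 0) := tendsto_rpow_neg_atTop hτ0
    have h4 : Tendsto (fun x : ℝ => 4 * ((Real.log x) ^ k * x ^ (-τ)) + 4 * |c| * x ^ (-τ)) atTop (𝓝 (4 * 0 + 4 * |c| * 0)) :=
      (h1.const_mul 4).add (h3.const_mul _)
    have h5 := h4.comp hcast
    simp only [mul_zero, add_zero] at h5
    refine h5.congr fun x => ?_
    simp only [Function.comp]
    ring
  filter_upwards [hlog.eventually_ge_atTop 1, hz1.eventually_ge_atTop (max X0 3), hsmall.eventually_le_const hε,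
    eventually_ge_atTop 2] with x hx1 hx2 hx3 hx4
  have hx0 : (0 : ℝ) < x := by positivity
  set z : ℕ := ⌈(x : ℝ) ^ (1 - τ)⌉₊ with hz
  have hzle : (x : ℝ) ^ (1 - τ) ≤ z := Nat.le_ceil _
  have hzX : X0 ≤ z := by
    have : (X0 : ℝ) ≤ z := ((le_max_left _ _).trans hx2).trans hzle
    exact_mod_cast this
  have hz3 : 3 ≤ z := by
    have : (3 : ℝ) ≤ z := ((le_max_right _ _).trans hx2).trans hzle
    exact_mod_cast this
  have hzup : (z : ℝ) ≤ 2 * (x : ℝ) ^ (1 - τ) := by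
    have h1 : (z : ℝ) < (x : ℝ) ^ (1 - τ) + 1 := Nat.ceil_lt_add_one (by positivity)
    have h2 : (3 : ℝ) ≤ (x : ℝ) ^ (1 - τ) := (le_max_right _ _).trans hx2
    linarith
  have hLpos : 0 ≤ (Real.log x) ^ k := by positivity
  have hwin : ∀ y h : ℕ, z ≤ y → y + h ≤ x → (y : ℝ) ^ (1 / 2 : ℝ) ≤ h → h ≤ y →
      |(num Q H y (y + h) : ℝ) * (Real.log x) ^ k - c * h| ≤ ε * h := by
    intro y h h1 h2 h3 h4
    have hy0 : (0 : ℝ) < y := by
      have : 0 < y := by omega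
      exact_mod_cast this
    have e1 := hX0 y (hzX.trans h1) h h3 h4
    have hlogy : (1 - τ) * Real.log x ≤ Real.log y := by
      rw [← Real.log_rpow hx0]
      apply Real.log_le_log (by positivity)
      exact hzle.trans (by exact_mod_cast h1)
    have hlogyx : Real.log y ≤ Real.log x := by
      apply Real.log_le_log hy0
      have : y ≤ x := by omega
      exact_mod_cast this
    have hly0 : 0 < Real.log y := by
      have : 0 < (1 - τ) * Real.log x := by
        apply mul_pos (by linarith) (by linarith)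
      linarith
    -- the ratio of the powers
    have hr1 : (Real.log x) ^ k ≤ (1 + δ) * (Real.log y) ^ k := by
      calc (Real.log x) ^ k = 1 * (Real.log x) ^ k := by ring
        _ ≤ ((1 + δ) * (1 - τ) ^ k) * (Real.log x) ^ k := by gcongr
        _ = (1 + δ) * ((1 - τ) * Real.log x) ^ k := by rw [mul_pow]; ring
        _ ≤ (1 + δ) * (Real.log y) ^ k := by
            have : 0 ≤ (1 - τ) * Real.log x := mul_nonneg (by linarith) (by linarith)
            gcongr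
    have hr2 : (Real.log y) ^ k ≤ (Real.log x) ^ k := by gcongr
    have hly : 0 < (Real.log y) ^ k := by positivity
    obtain ⟨ρ, hρ, hρ1, hρ2⟩ : ∃ ρ : ℝ, (Real.log x) ^ k = (Real.log y) ^ k * ρ ∧ 1 ≤ ρ ∧ ρ ≤ 1 + δ := by
      refine ⟨(Real.log x) ^ k / (Real.log y) ^ k, by field_simp, ?_, ?_⟩
      · rw [le_div_iff₀ hly]; linarith
      · rw [div_le_iff₀ hly]; linarith
    have hh0 : (0 : ℝ) ≤ h := Nat.cast_nonneg _
    have hρ0 : 0 ≤ ρ := by linarith
    rw [hρ]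
    calc |(num Q H y (y + h) : ℝ) * ((Real.log y) ^ k * ρ) - c * h|
        = |ρ * ((num Q H y (y + h) : ℝ) * (Real.log y) ^ k - c * h) + (ρ - 1) * c * h| := by
          congr 1; ring
      _ ≤ |ρ * ((num Q H y (y + h) : ℝ) * (Real.log y) ^ k - c * h)| + |(ρ - 1) * c * h| := abs_add_le _ _
      _ = ρ * |(num Q H y (y + h) : ℝ) * (Real.log y) ^ k - c * h| + (ρ - 1) * |c| * h := by
          rw [abs_mul, abs_of_nonneg hρ0, abs_mul, abs_mul, abs_of_nonneg hh0,
            abs_of_nonneg (show 0 ≤ ρ - 1 by linarith)]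
      _ ≤ (1 + δ) * (ε / 4 * h) + δ * |c| * h := by
          gcongr
          linarith
      _ ≤ ε * h := by
          have : (1 + δ) * (ε / 4) + δ * |c| ≤ ε := by nlinarith
          nlinarith
  have hfin := step Q H ((Real.log x) ^ k) c ε hLpos hε.le z x hz3 hwin x le_rfl
  have h6 : (num Q H 0 x : ℝ) * (Real.log x) ^ k / x - c = ((num Q H 0 x : ℝ) * (Real.log x) ^ k - c * x) / x := by
    field_simp
  rw [h6, abs_div, abs_of_pos hx0, div_le_iff₀ hx0]
  refine hfin.trans ?_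
  have h7 : 2 * (z : ℝ) * ((Real.log x) ^ k + |c|) ≤ ε * x := by
    calc 2 * (z : ℝ) * ((Real.log x) ^ k + |c|) ≤ 2 * (2 * (x : ℝ) ^ (1 - τ)) * ((Real.log x) ^ k + |c|) := by
          gcongr
      _ = (4 * (x : ℝ) ^ (-τ) * ((Real.log x) ^ k + |c|)) * x := by
          have : (x : ℝ) ^ (1 - τ) = (x : ℝ) ^ (-τ) * x := by
            rw [show (1 - τ) = -τ + 1 by ring, Real.rpow_add hx0, Real.rpow_one]
          rw [this]; ring
      _ ≤ ε * x := by gcongr
  linarith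

theorem t_FUL : Pool.Agent.U485.SM.S_FUL := by
  intro Q H c hyp
  rw [Metric.tendsto_atTop]
  intro ε hε
  have h := ful_aux Q H c hyp (min (ε / 4) 1) (by positivity) (min_le_right _ _)
  obtain ⟨N, hN⟩ := eventually_atTop.1 h
  refine ⟨N, fun n hn => ?_⟩
  rw [Real.dist_eq]
  have h1 := hN n hn
  have h2 : min (ε / 4) 1 ≤ ε / 4 := min_le_left _ _
  linarith

end Pool.Agent.U44.HT
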